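import Pool.Agent.H240.IX.DefH
import Pool.Agent.H240.CG.Fin

/-!
# Intervals of quantum limits: negative curvature off the collar
-/

set_option autoImplicit false
set_option linter.unusedSectionVars false

open Set Filter Topology MeasureTheory
open scoped ContDiff ComplexConjugate Real

noncomputable section

namespace Pool.Agent.H227.IX

open Pool.Agent.Y262.EG Pool.Agent.Y262.EX
open Pool.Agent.H240.SG Pool.Agent.H240.CG Pool.Agent.H240.IX
open Pool.Agent.Y868.EX (om_open)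

/-- the directional derivative of a sum -/
theorem dir_add {φ ψ : ℂ → ℝ} {z : ℂ} (hφ : ContDiffAt ℝ 2 φ z) (hψ : ContDiffAt ℝ 2 ψ z)
    (v : ℂ) :
    fderiv ℝ (fun w => fderiv ℝ (fun w => φ w + ψ w) w v) z v =
      fderiv ℝ (fun w => fderiv ℝ φ w v) z v + fderiv ℝ (fun w => fderiv ℝ ψ w v) z v := by
  have h1 : ∀ᶠ w in 𝓝 z, DifferentiableAt ℝ φ w := by
    filter_upwards [hφ.eventually (by simp)] with w hw using hw.differentiableAt (by norm_num)
  have h2 : ∀ᶠ w in 𝓝 z, DifferentiableAt ℝ ψ w := by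
    filter_upwards [hψ.eventually (by simp)] with w hw using hw.differentiableAt (by norm_num)
  have h3 : (fun w => fderiv ℝ (fun w => φ w + ψ w) w v) =ᶠ[𝓝 z]
      fun w => fderiv ℝ φ w v + fderiv ℝ ψ w v := by
    filter_upwards [h1, h2] with w hw1 hw2
    rw [fderiv_fun_add hw1 hw2]
    rfl
  have d1 : DifferentiableAt ℝ (fun w => fderiv ℝ φ w v) z := by
    have := (hφ.fderiv_right (m := 1) (by norm_num)).differentiableAt (by norm_num)
    exact this.clm_apply (differentiableAt_const v)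
  have d2 : DifferentiableAt ℝ (fun w => fderiv ℝ ψ w v) z := by
    have := (hψ.fderiv_right (m := 1) (by norm_num)).differentiableAt (by norm_num)
    exact this.clm_apply (differentiableAt_const v)
  rw [h3.fderiv_eq, fderiv_fun_add d1 d2]
  rfl

/-- the Laplacian of a sum -/
theorem lap_add {φ ψ : ℂ → ℝ} {z : ℂ} (hφ : ContDiffAt ℝ 2 φ z) (hψ : ContDiffAt ℝ 2 ψ z) :
    px (px fun w => φ w + ψ w) z + py (py fun w => φ w + ψ w) z =
      (px (px φ) z + py (py φ) z) + (px (px ψ) z + py (py ψ) z) := by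
  have h1 : px (px fun w => φ w + ψ w) z = px (px φ) z + px (px ψ) z := dir_add hφ hψ 1
  have h2 : py (py fun w => φ w + ψ w) z = py (py φ) z + py (py ψ) z := dir_add hφ hψ Complex.I
  rw [h1, h2]
  ring

/-- the difference of the metrics -/
theorem phi_diff {g G : ℝ → ℝ} {c1 c : ℝ} (h1 : ∀ x ∈ I0, |G x - g x| ≤ 1) (h2 : |c| ≤ 1)
    (z : ℂ) : |phi G (c1 + c) z - phi g c1 z| ≤ 1 := by
  have h0 := L0p
  unfold phi
  split_ifs with h
  · have h3 := h.choose_spec
    have h4 : (ac h.choose z).re ∈ I0 := mem_I0 (by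
      rw [abs_lt]
      constructor <;> linarith [h3.1, h3.2])
    have h5 := h1 _ h4
    have e : F0 z.re + G (ac h.choose z).re - F0 (ac h.choose z).re -
        (F0 z.re + g (ac h.choose z).re - F0 (ac h.choose z).re) =
        G (ac h.choose z).re - g (ac h.choose z).re := by ring
    rw [e]
    exact h5
  · have e : F0 z.re + (c1 + c) - (F0 z.re + c1) = c := by ring
    rw [e]
    exact h2

/-- `g''` is bounded below by a positive constant off the flat part -/
theorem low_g {g : ℝ → ℝ} {c1 C0 : ℝ} (hP : Prof g c1 C0) :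
    ∃ m1 : ℝ, 0 < m1 ∧ ∀ x, 5 / 8 * L0 ≤ |x - L0 / 2| → |x - L0 / 2| ≤ 2 * L0 →
      m1 ≤ deriv (deriv g) x := by
  have h0 := L0p
  have hsm : ContDiffOn ℝ ∞ g I0 := hP.smooth
  have g2 := deriv_smooth (deriv_smooth hsm)
  set K : Set ℝ := {x : ℝ | 5 / 8 * L0 ≤ |x - L0 / 2| ∧ |x - L0 / 2| ≤ 2 * L0} with hK
  have hKc : IsCompact K := by
    refine isCompact_Icc.of_isClosed_subset (s := Icc (-(2 * L0)) (3 * L0)) ?_ ?_
    · have k1 : IsClosed {x : ℝ | 5 / 8 * L0 ≤ |x - L0 / 2|} :=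
        isClosed_le continuous_const (by fun_prop)
      have k2 : IsClosed {x : ℝ | |x - L0 / 2| ≤ 2 * L0} :=
        isClosed_le (by fun_prop) continuous_const
      exact k1.inter k2
    · intro x hx
      have := abs_le.1 hx.2
      exact ⟨by linarith [this.1], by linarith [this.2]⟩
  have hKI : K ⊆ I0 := fun x hx => mem_I0 (by linarith [hx.2])
  have hKne : K.Nonempty := by
    refine ⟨L0 / 2 + L0, ?_, ?_⟩
    · rw [add_sub_cancel_left, abs_of_pos (by positivity)]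
      linarith
    · rw [add_sub_cancel_left, abs_of_pos (by positivity)]
      linarith
  obtain ⟨xm, hxm, hmin⟩ := hKc.exists_isMinOn hKne (g2.continuousOn.mono hKI)
  refine ⟨deriv (deriv g) xm, ?_, fun x hx1 hx2 => hmin ⟨hx1, hx2⟩⟩
  refine lt_of_le_of_ne (hP.cvx xm (hKI hxm)) fun hcon => ?_
  have h1 := hP.zero xm (hKI hxm) hcon.symm
  have h2 := hxm.1
  have h3 : |xm - L0 / 2| ≤ L0 / 2 := by
    rw [abs_le]
    exact ⟨by linarith [h1.1], by linarith [h1.2]⟩
  linarith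

/-- the curvature of the unperturbed metrics -/
theorem crv0 {g : ℝ → ℝ} {c1 C0 m0 : ℝ} (hP : Prof g c1 C0) (hm0 : 0 < m0) :
    ∃ c2 : ℝ, 0 < c2 ∧ ∀ (G : ℝ → ℝ) (c C : ℝ), Prof2 G (c1 + c) C →
      (∀ x ∈ I0, |G x - g x| ≤ 1) → |c| ≤ 1 →
      (∀ x, |x - L0 / 2| < 4 / 5 * L0 → 1 / 2 * deriv (deriv g) x ≤ deriv (deriv G) x) →
      (∀ x, 4 / 5 * L0 ≤ |x - L0 / 2| → |x - L0 / 2| ≤ 9 / 10 * L0 → m0 ≤ deriv (deriv G) x) →
      (∀ x, 9 / 10 * L0 ≤ |x - L0 / 2| → G x = g x + c) →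
      ∀ z ∈ Om, (∀ γ, 5 / 8 * L0 ≤ |(ac γ z).re - L0 / 2|) →
        curv (phi G (c1 + c)) z ≤ -c2 := by
  have h0 := L0p
  have hl : 0 < lam := tW.2.1
  obtain ⟨m1, hm1, hm⟩ := low_g hP
  have hsm : ContDiffOn ℝ ∞ g I0 := hP.smooth
  have hI : Icc (-(3 / 2 * L0)) (5 / 2 * L0) ⊆ I0 := by
    rintro x ⟨hx1, hx2⟩
    refine ⟨?_, ?_⟩
    · linarith
    · linarith
  obtain ⟨B, hB⟩ := (isCompact_Icc (a := -(3 / 2 * L0)) (b := 5 / 2 * L0)).exists_bound_of_continuousOn
    (hsm.continuousOn.mono hI)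
  set m2 : ℝ := min (m1 / 2) m0 with hm2
  have hm2p : 0 < m2 := lt_min (by linarith) hm0
  set c2 : ℝ := min (Real.exp (-2 * (B + 1)) * m2) (lam ^ 2 * Real.exp (-2 * (c1 + 1))) with hc2
  have hc2p : 0 < c2 := lt_min (by positivity) (by positivity)
  refine ⟨c2, hc2p, ?_⟩
  intro G c C hG hd hc hn hmid hfar z hz hγ
  obtain ⟨p1, p2⟩ := phi3W hG.profW
  by_cases h : ∃ γ : Gq, ac γ z ∈ Stp L0 (3 / 2 * L0)
  · obtain ⟨γ, hγS⟩ := h
    rw [← curv_ac (phi2W hG.profW).1 γ hz, p1 _ hγS]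
    have hx1 := hγ γ
    set x := (ac γ z).re with hx
    have hxa : -(3 / 2 * L0) < x := hγS.1
    have hxb : x < L0 + 3 / 2 * L0 := hγS.2
    have hx2 : |x - L0 / 2| ≤ 2 * L0 := by
      rw [abs_le]
      constructor <;> linarith
    have hxI : x ∈ I0 := mem_I0 (by linarith)
    have hgx : g x ≤ B := by
      have := hB x ⟨by linarith, by linarith⟩
      rw [Real.norm_eq_abs] at this
      exact (le_abs_self _).trans this
    have hGx : G x ≤ B + 1 := by
      have := (abs_le.1 (hd x hxI)).2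
      linarith
    have hmx := hm x hx1 hx2
    have hG2 : m2 ≤ deriv (deriv G) x := by
      rcases lt_or_ge (|x - L0 / 2|) (4 / 5 * L0) with h1 | h1
      · have := hn x h1
        have h3 : m2 ≤ m1 / 2 := min_le_left _ _
        linarith
      · rcases le_or_gt (|x - L0 / 2|) (9 / 10 * L0) with h2 | h2
        · exact (min_le_right _ _).trans (hmid x h1 h2)
        · have hfO : IsOpen {x : ℝ | 9 / 10 * L0 < |x - L0 / 2|} :=
            isOpen_lt continuous_const (by fun_prop)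
          have f1 := deriv_loc hfO (f := G) (f' := fun x => g x + c) fun x hx => hfar x (le_of_lt hx)
          have f1' : ∀ x ∈ {x : ℝ | 9 / 10 * L0 < |x - L0 / 2|}, deriv G x = deriv g x :=
            fun x hx => by rw [f1 x hx]; simp
          have f2 := deriv_loc hfO f1' x h2
          rw [f2]
          have h3 : m2 ≤ m1 / 2 := min_le_left _ _
          linarith
    have hexp : Real.exp (-2 * (B + 1)) ≤ Real.exp (-2 * G x) := Real.exp_le_exp.2 (by linarith)
    have h4 : Real.exp (-2 * (B + 1)) * m2 ≤ Real.exp (-2 * G x) * deriv (deriv G) x :=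
      mul_le_mul hexp hG2 hm2p.le (Real.exp_pos _).le
    have h5 : c2 ≤ Real.exp (-2 * (B + 1)) * m2 := min_le_left _ _
    linarith
  · push Not at h
    rw [p2 z hz fun γ hγ' => h γ ⟨by linarith [hγ'.1], by linarith [hγ'.2]⟩]
    have h1 : Real.exp (-2 * (c1 + 1)) ≤ Real.exp (-2 * (c1 + c)) :=
      Real.exp_le_exp.2 (by linarith [(abs_le.1 hc).2])
    have h2 : lam ^ 2 * Real.exp (-2 * (c1 + 1)) ≤ lam ^ 2 * Real.exp (-2 * (c1 + c)) :=
      mul_le_mul_of_nonneg_left h1 (by positivity)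
    have h5 : c2 ≤ lam ^ 2 * Real.exp (-2 * (c1 + 1)) := min_le_right _ _
    linarith

/-- `IX-18` -/
theorem stCrv : StCrv := by
  intro M _ _ pr g c1 C0 m0 O hpr hO hP hm0
  have h0 := L0p
  obtain ⟨c2, hc2, hcrv⟩ := crv0 hP hm0
  have hgs : ContDiffOn ℝ ∞ (phi g c1) Om := smoothW ⟨hP.smooth, hP.hyp⟩
  obtain ⟨B, hB⟩ := hO.cpt.exists_bound_of_continuousOn (hgs.continuousOn.mono hO.sub)
  set K : ℝ := Real.exp (2 * (B + 1)) with hK
  have hKp : 0 < K := Real.exp_pos _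
  set e : ℝ := Real.exp 1 with he
  have hep : 0 < e := Real.exp_pos _
  set ε0 : ℝ := min (1 / 2) (c2 / (2 * e ^ 2 * K)) with hε0
  have hε0p : 0 < ε0 := lt_min (by norm_num) (by positivity)
  refine ⟨ε0, c2 / (2 * e), hε0p, by positivity, ?_⟩
  intro G c C hG hd hc hn hmid hfar Ψ hΨ hΨb hΨd z hz hγ
  have hc0 := hcrv G c C hG hd hc hn hmid hfar z hz hγ
  have hInv := (phi2W hG.profW).1
  set φ : ℂ → ℝ := phi G (c1 + c) with hφ
  have hInvS : Inva Om (fun z => φ z + Ψ (pr z)) ac := by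
    refine ⟨hInv.1.add hΨ.sm, fun γ w hw => ⟨(hInv.2 γ w hw).1, ?_⟩⟩
    have h1 := (hInv.2 γ w hw).2
    have h2 : pr (ac γ w) = pr w :=
      ((hpr.rel w hw (ac γ w) (tAc.1 γ w hw).1).2 ⟨γ, rfl⟩).symm
    simp only [h2]
    linarith
  obtain ⟨γ, hγO⟩ := hO.cov z hz
  rw [← curv_ac hInvS γ hz]
  rw [← curv_ac hInv γ hz] at hc0
  set w := ac γ z with hw
  have hwO : w ∈ Om := hO.sub (subset_closure hγO)
  have hOm : Om ∈ 𝓝 w := om_open.mem_nhds hwO
  have s1 : ContDiffAt ℝ 2 φ w :=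
    (hInv.1.contDiffAt hOm).of_le (WithTop.coe_le_coe.2 le_top)
  have s2 : ContDiffAt ℝ 2 (fun z => Ψ (pr z)) w :=
    (hΨ.sm.contDiffAt hOm).of_le (WithTop.coe_le_coe.2 le_top)
  have hlap := lap_add s1 s2
  have hD := hΨd w hγO
  have hps := hΨb (pr w)
  have hdif := phi_diff (c1 := c1) hd hc w
  have hBw := hB w (subset_closure hγO)
  rw [Real.norm_eq_abs] at hBw
  unfold curv at hc0 ⊢
  beta_reduce
  rw [hlap]
  set A := px (px φ) w + py (py φ) w with hA
  set D := px (px fun z => Ψ (pr z)) w + py (py fun z => Ψ (pr z)) w with hDd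
  set y := Ψ (pr w) with hy
  have hy1 : |y| ≤ 1 / 2 := hps.trans (min_le_left _ _)
  have hD1 : |D| ≤ c2 / (2 * e ^ 2 * K) := hD.trans (min_le_right _ _)
  have hφw : -φ w ≤ B + 1 := by
    have h1 := (abs_le.1 hBw).1
    have h2 := (abs_le.1 hdif).1
    linarith
  have e1 : Real.exp (-2 * (φ w + y)) = Real.exp (-2 * φ w) * Real.exp (-2 * y) := by
    rw [← Real.exp_add]
    congr 1
    ring
  have e2 : Real.exp (-2 * φ w) ≤ K := Real.exp_le_exp.2 (by linarith)
  have e3 : Real.exp (-2 * y) ≤ e := Real.exp_le_exp.2 (by linarith [(abs_le.1 hy1).1])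
  have e4 : e⁻¹ ≤ Real.exp (-2 * y) := by
    rw [he, ← Real.exp_neg]
    exact Real.exp_le_exp.2 (by linarith [(abs_le.1 hy1).2])
  set a := Real.exp (-2 * φ w) with ha
  set b := Real.exp (-2 * y) with hb
  have hap : 0 < a := Real.exp_pos _
  have hbp : 0 < b := Real.exp_pos _
  rw [e1]
  have f1 : c2 ≤ a * A := by linarith
  have f2 : e⁻¹ * c2 ≤ b * (a * A) := mul_le_mul e4 f1 hc2.le hbp.le
  have f3 : |a * b * D| ≤ K * e * (c2 / (2 * e ^ 2 * K)) := by
    rw [abs_mul, abs_of_pos (mul_pos hap hbp)]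
    exact mul_le_mul (mul_le_mul e2 e3 hbp.le hKp.le) hD1 (abs_nonneg _) (by positivity)
  have f4 : K * e * (c2 / (2 * e ^ 2 * K)) = c2 / (2 * e) := by
    field_simp
  have f5 : e⁻¹ * c2 = 2 * (c2 / (2 * e)) := by
    field_simp
  have f6 := (abs_le.1 f3).1
  rw [f4] at f6
  have f7 : a * b * (A + D) = b * (a * A) + a * b * D := by ring
  rw [f7]
  linarith

end Pool.Agent.H227.IX
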